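import Pool.Agent.Lib.OC.Blue

set_option autoImplicit false

namespace Pool.Agent.OC66

/-! ### the only lemmas that unfold `RowOK` and `Ty2` -/

theorem bjr_famA : ∀ e : Bool, ∀ A ∈ famA e, ∀ y ∈ A, xor (isQ 1) (isQ y) = e := by decide

theorem bjr_famB : ∀ e : Bool, ∀ B ∈ famB e, ∀ y ∈ B, xor (isQ (-1)) (isQ y) = e := by decide

theorem bjr_row_par {e : Bool} {R R' : Z → Z → Prop} (h : RowOK e R)
    (hm : ∀ x y, xor (isQ x) (isQ y) = e → R x y → R' x y) : RowOK e R' := by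
  obtain ⟨⟨A, hA, h1⟩, B, hB, h2⟩ := h
  exact ⟨⟨A, hA, fun y hy => hm _ _ (bjr_famA e A hA y hy) (h1 y hy)⟩, B, hB,
    fun y hy => hm _ _ (bjr_famB e B hB y hy) (h2 y hy)⟩

theorem bjr_ty2_sym {e : Bool} {R : Z → Z → Prop} (h : Ty2 e R) : Sym R := h.1

theorem bjr_ty2_inv {e : Bool} {R : Z → Z → Prop} (h : Ty2 e R) : Ty2 e fun x y => R y x :=
  ⟨fun c hc x y hxy => h.1 c hc y x hxy, h.2.2, h.2.1⟩

theorem bjr_ty2_mk {e : Bool} {R R1 R2 : Z → Z → Prop} (hs : Sym R) (h1 : RowOK e R1)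
    (h2 : RowOK e R2) (m1 : ∀ x y, xor (isQ x) (isQ y) = e → R1 x y → R x y)
    (m2 : ∀ x y, xor (isQ x) (isQ y) = e → R2 x y → R y x) : Ty2 e R :=
  ⟨hs, bjr_row_par h1 m1, bjr_row_par h2 m2⟩

theorem bjr_ty2_mono {e : Bool} {R R' : Z → Z → Prop} (h : Ty2 e R) (hs : Sym R')
    (hm : ∀ x y, xor (isQ x) (isQ y) = e → R x y → R' x y) : Ty2 e R' :=
  bjr_ty2_mk hs h.2.1 h.2.2 hm fun x y hp hxy => hm y x (by rw [Bool.xor_comm]; exact hp) hxy

/-! ### arithmetic -/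

theorem bjr_isQ_mul : ∀ c x : Z, isQ c = true → isQ (c * x) = isQ x := by decide

theorem bjr_isQ_one : isQ 1 = true := by decide

theorem bjr_isQ_zero : isQ 0 = false := by decide

theorem bjr_ar_mul (d : Bool) (c t x y : Z) (hc : isQ c = true) (h : ar d x y) :
    ar d (c * x + t) (c * y + t) := by
  unfold ar at h ⊢
  have e1 : c * y + t - (c * x + t) = c * (y - x) := by ring
  have e2 : c * x + t - (c * y + t) = c * (x - y) := by ring
  rw [e1, e2, bjr_isQ_mul _ _ hc, bjr_isQ_mul _ _ hc]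
  exact h

theorem bjr_ar_ne {d : Bool} {x y : Z} (h : ar d x y) : x ≠ y := by
  rintro rfl
  unfold ar at h
  rw [sub_self, bjr_isQ_zero] at h
  cases d <;> simp at h

theorem bjr_par_sym {e : Bool} {R : Z → Z → Prop} (h : Sym R) :
    Sym fun x y => xor (isQ x) (isQ y) = e ∧ R x y := by
  intro c hc x y hxy
  refine ⟨?_, h c hc x y hxy.2⟩
  rw [bjr_isQ_mul _ _ hc, bjr_isQ_mul _ _ hc]
  exact hxy.1

theorem bjr_ty_sym {e : Bool} {R : Z → Z → Prop} (h : Ty e R) : Sym R := by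
  rcases h with h | h
  · exact h.1
  · exact bjr_ty2_sym h

theorem bjr_T1_inv {d e : Bool} {x y : Z} (h : T1 (!d) e x y) : T1 d e y x := by
  obtain ⟨h1, h2⟩ := h
  refine ⟨?_, by rw [Bool.xor_comm]; exact h2⟩
  unfold ar at h1 ⊢
  cases d <;> simpa using h1

theorem bjr_ty_inv {e : Bool} {R : Z → Z → Prop} (h : Ty e R) : Ty e fun x y => R y x := by
  rcases h with ⟨hs, d, hd⟩ | h
  · exact Or.inl ⟨fun c hc x y hxy => hs c hc y x hxy, !d, fun x y hxy => hd y x (bjr_T1_inv hxy)⟩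
  · exact Or.inr (bjr_ty2_inv h)

theorem bjr_ty2_par {e : Bool} {R : Z → Z → Prop} (h : Ty2 e R) :
    Ty2 e fun x y => xor (isQ x) (isQ y) = e ∧ R x y :=
  bjr_ty2_mono h (bjr_par_sym (bjr_ty2_sym h)) fun _ _ hp hxy => ⟨hp, hxy⟩

theorem bjr_ty_par {e : Bool} {R : Z → Z → Prop} (h : Ty e R) :
    Ty e fun x y => xor (isQ x) (isQ y) = e ∧ R x y := by
  rcases h with ⟨hs, d, hd⟩ | h
  · exact Or.inl ⟨bjr_par_sym hs, d, fun x y hxy => ⟨hxy.2, hd x y hxy⟩⟩
  · exact Or.inr (bjr_ty2_par h)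

theorem bjr_T1_ty (d e : Bool) : Ty e fun x y => T1 d e y x := by
  refine Or.inl ⟨?_, !d, fun x y hxy => bjr_T1_inv hxy⟩
  intro c hc x y hxy
  refine ⟨?_, ?_⟩
  · have := bjr_ar_mul d c 0 y x hc hxy.1
    simpa using this
  · rw [bjr_isQ_mul _ _ hc, bjr_isQ_mul _ _ hc]
    exact hxy.2

/-! ### chains -/

theorem bjr_ch_append (L1 L2 : List ((Z → Z → Prop) × Z)) (x y : Z) :
    ch (L1 ++ L2) x y ↔ ∃ p, ch L2 x p ∧ ch L1 p y := by
  induction L1 generalizing y with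
  | nil => simp [ch]
  | cons z L ih =>
    simp only [List.cons_append, ch]
    constructor
    · rintro ⟨p, h1, h2⟩
      obtain ⟨q, h3, h4⟩ := (ih p).1 h1
      exact ⟨q, h3, p, h4, h2⟩
    · rintro ⟨q, h3, p, h4, h2⟩
      exact ⟨p, (ih p).2 ⟨q, h3, h4⟩, h2⟩

theorem bjr_ch_scale (L : List ((Z → Z → Prop) × Z)) (hL : AllTy L) (c c' : Z)
    (hc : isQ c = true) (x y : Z) (h : ch (scale c' L) x y) :
    ch (scale (c * c') L) (c * x) (c * y) := by
  induction L generalizing y with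
  | nil =>
    have h' : x = y := h
    show c * x = c * y
    rw [h']
  | cons z L ih =>
    obtain ⟨p, h1, h2⟩ := h
    obtain ⟨e, he⟩ := hL z (List.mem_cons_self ..)
    refine ⟨c * p, ih (fun w hw => hL w (List.mem_cons_of_mem _ hw)) p h1, ?_⟩
    have h3 := bjr_ty_sym he c hc _ _ h2
    have e1 : c * p - c * c' * z.2 = c * (p - c' * z.2) := by ring
    have e2 : c * y - c * c' * z.2 = c * (y - c' * z.2) := by ring
    show z.1 (c * p - c * c' * z.2) (c * y - c * c' * z.2)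
    rw [e1, e2]
    exact h3

theorem bjr_sch_sym (L : List ((Z → Z → Prop) × Z)) (hL : AllTy L) : Sym (sch L) := by
  rintro c hc x y ⟨c', hc', h⟩
  exact ⟨c * c', by rw [bjr_isQ_mul _ _ hc]; exact hc', bjr_ch_scale L hL c c' hc x y h⟩

/-- the inverse chain -/
def bjrInv (L : List ((Z → Z → Prop) × Z)) : List ((Z → Z → Prop) × Z) :=
  (L.map fun z => (fun x y => z.1 y x, z.2)).reverse

theorem bjr_ch_inv (c : Z) (L : List ((Z → Z → Prop) × Z)) (x y : Z)
    (h : ch (scale c (bjrInv L)) x y) : ch (scale c L) y x := by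
  induction L generalizing x with
  | nil => exact Eq.symm h
  | cons z L ih =>
    have e1 : scale c (bjrInv (z :: L)) =
        scale c (bjrInv L) ++ [(fun x y => z.1 y x, c * z.2)] := by
      simp [scale, bjrInv]
    rw [e1, bjr_ch_append] at h
    obtain ⟨p, ⟨q, h1, h2⟩, h3⟩ := h
    have h1' : x = q := h1
    subst h1'
    exact ⟨p, ih p h3, h2⟩

theorem bjr_mem_inv {L : List ((Z → Z → Prop) × Z)} {w : (Z → Z → Prop) × Z}
    (h : w ∈ bjrInv L) : ∃ z ∈ L, w = (fun x y => z.1 y x, z.2) := by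
  unfold bjrInv at h
  rw [List.mem_reverse, List.mem_map] at h
  obtain ⟨z, hz, rfl⟩ := h
  exact ⟨z, hz, rfl⟩

theorem blk_BIN (h1 : St_CU) (h2 : St_OP) : St_BIN := by
  intro L hL hnz e
  have hs : Sym fun x y => xor (isQ x) (isQ y) = e ∧ sch L x y := bjr_par_sym (bjr_sch_sym L hL)
  have main : (2 ≤ L.length ∨ ∀ z ∈ L, ∃ e, Ty2 e z.1) →
      Ty2 e fun x y => xor (isQ x) (isQ y) = e ∧ sch L x y := by
    intro hc
    have hI : AllTy (bjrInv L) := by
      intro w hw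
      obtain ⟨z, hz, rfl⟩ := bjr_mem_inv hw
      obtain ⟨e', he'⟩ := hL z hz
      exact ⟨e', bjr_ty_inv he'⟩
    have hnzI : ∃ z ∈ bjrInv L, z.2 ≠ 0 := by
      obtain ⟨z, hz, h0⟩ := hnz
      refine ⟨(fun x y => z.1 y x, z.2), ?_, h0⟩
      unfold bjrInv
      rw [List.mem_reverse, List.mem_map]
      exact ⟨z, hz, rfl⟩
    have hcI : 2 ≤ (bjrInv L).length ∨ ∀ z ∈ bjrInv L, ∃ e, Ty2 e z.1 := by
      rcases hc with hc | hc
      · left
        simpa [bjrInv] using hc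
      · right
        intro w hw
        obtain ⟨z, hz, rfl⟩ := bjr_mem_inv hw
        obtain ⟨e', he'⟩ := hc z hz
        exact ⟨e', bjr_ty2_inv he'⟩
    refine bjr_ty2_mk hs (h1 L hL hnz hc e) (h1 _ hI hnzI hcI e) (fun x y hp hxy => ⟨hp, hxy⟩) ?_
    rintro x y hp ⟨c, hc', h⟩
    exact ⟨by rw [Bool.xor_comm]; exact hp, c, hc', bjr_ch_inv c L x y h⟩
  refine ⟨?_, main⟩
  by_cases hc : 2 ≤ L.length ∨ ∀ z ∈ L, ∃ e, Ty2 e z.1
  · exact Or.inr (main hc)
  · obtain ⟨z, hz, h0⟩ := hnz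
    have hL1 : L = [z] := by
      match L, hz, hc with
      | [w], hz, _ => rw [List.mem_singleton.1 hz]
      | _ :: _ :: _, _, hc => exact absurd (Or.inl (by simp)) hc
    subst hL1
    obtain ⟨e', he'⟩ := hL z hz
    rcases he' with ⟨_, d, hd⟩ | he'
    · refine Or.inl ⟨hs, d, fun x y hxy => ⟨hxy.2, ?_⟩⟩
      obtain ⟨c, hc', h⟩ := h2.1 d e' e z.2 h0 x y hxy
      exact ⟨c, hc', x, rfl, hd _ _ h⟩
    · refine absurd (Or.inr ?_) hc
      intro w hw
      rw [List.mem_singleton.1 hw]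
      exact ⟨e', he'⟩

/-! ### junctions -/

theorem bjr_scale_zero (c : Z) (L : List ((Z → Z → Prop) × Z)) (h0 : ∀ z ∈ L, z.2 = 0) :
    scale c L = L := by
  induction L with
  | nil => rfl
  | cons z L ih =>
    have e1 : scale c (z :: L) = (z.1, c * z.2) :: scale c L := rfl
    rw [e1, ih fun w hw => h0 w (List.mem_cons_of_mem _ hw)]
    have e2 : c * z.2 = z.2 := by rw [h0 z (List.mem_cons_self ..), mul_zero]
    rw [e2]

theorem bjr_zero_ty (h3 : St_CL) (L : List ((Z → Z → Prop) × Z)) (hL : AllTy L) (hne : L ≠ [])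
    (h0 : ∀ z ∈ L, z.2 = 0) : ∃ e, Ty e (ch L) := by
  induction L with
  | nil => exact absurd rfl hne
  | cons z L ih =>
    obtain ⟨e2, he2⟩ := hL z (List.mem_cons_self ..)
    have hz : z.2 = 0 := h0 z (List.mem_cons_self ..)
    by_cases hn : L = []
    · subst hn
      have e1 : ch [z] = z.1 := by
        funext x y
        simp [ch, hz]
      exact ⟨e2, by rw [e1]; exact he2⟩
    · obtain ⟨e1, he1⟩ := ih (fun w hw => hL w (List.mem_cons_of_mem _ hw)) hn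
        fun w hw => h0 w (List.mem_cons_of_mem _ hw)
      have e3 : ch (z :: L) = fun x y => ∃ p, ch L x p ∧ z.1 p y := by
        funext x y
        simp [ch, hz]
      exact ⟨xor e1 e2, by rw [e3]; exact Or.inr (h3 e1 e2 _ _ he1 he2)⟩

theorem bjr_xor3 : ∀ a b c e1 e2 : Bool, xor a b = e1 → xor b c = e2 → xor a c = xor e1 e2 := by
  decide

theorem blk_JN (h1 : St_CE) (h2 : St_BIN) (h3 : St_CL) : St_JN := by
  intro L1 L2 hL1 hL2 n1 n2 hnz e
  by_cases c1 : ∃ z ∈ L1, z.2 ≠ 0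
  · by_cases c2 : ∃ z ∈ L2, z.2 ≠ 0
    · exact Or.inr (h1 L1 L2 hL1 hL2 c1 c2 e)
    · have h0 : ∀ z ∈ L2, z.2 = 0 := fun z hz => by_contra fun h => c2 ⟨z, hz, h⟩
      obtain ⟨e2, he2⟩ := bjr_zero_ty h3 L2 hL2 n2 h0
      have hx : xor (xor e e2) e2 = e := by cases e <;> cases e2 <;> rfl
      refine Or.inl ⟨xor e e2, e2, _, _, hx, (h2 L1 hL1 c1 (xor e e2)).1, bjr_ty_par he2, ?_⟩
      rintro x w y r ⟨p1, c, hc, k1⟩ ⟨p2, k2⟩ hw
      refine ⟨(bjr_xor3 _ _ _ _ _ p1 p2).trans hx, c, hc, w, k1, ?_, hw⟩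
      rw [bjr_scale_zero c L2 h0]
      exact k2
  · have h0 : ∀ z ∈ L1, z.2 = 0 := fun z hz => by_contra fun h => c1 ⟨z, hz, h⟩
    have c2 : ∃ z ∈ L2, z.2 ≠ 0 := by
      obtain ⟨z, hz, hz0⟩ := hnz
      rcases List.mem_append.1 hz with h | h
      · exact absurd (h0 z h) hz0
      · exact ⟨z, h, hz0⟩
    obtain ⟨e1, he1⟩ := bjr_zero_ty h3 L1 hL1 n1 h0
    have hx : xor e1 (xor e1 e) = e := by cases e <;> cases e1 <;> rfl
    refine Or.inl ⟨e1, xor e1 e, _, _, hx, bjr_ty_par he1, (h2 L2 hL2 c2 (xor e1 e)).1, ?_⟩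
    rintro x w y r ⟨p1, k1⟩ ⟨p2, c, hc, k2⟩ hw
    refine ⟨(bjr_xor3 _ _ _ _ _ p1 p2).trans hx, c, hc, w, ?_, k2, hw⟩
    rw [bjr_scale_zero c L1 h0]
    exact k1

/-! ### resolved marks -/

/-- subtract `t` from all labels -/
def bjrSh (t : Z) (L : List ((Z → Z → Prop) × Z)) : List ((Z → Z → Prop) × Z) :=
  L.map fun z => (z.1, z.2 - t)

theorem bjr_ch_sh (c t : Z) (L : List ((Z → Z → Prop) × Z)) (x y : Z)
    (h : ch (scale c (bjrSh t L)) x y) : ch (scale c L) (x + c * t) (y + c * t) := by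
  induction L generalizing y with
  | nil =>
    have h' : x = y := h
    show x + c * t = y + c * t
    rw [h']
  | cons z L ih =>
    obtain ⟨p, k1, k2⟩ := h
    refine ⟨p + c * t, ih p k1, ?_⟩
    have e1 : p + c * t - c * z.2 = p - c * (z.2 - t) := by ring
    have e2 : y + c * t - c * z.2 = y - c * (z.2 - t) := by ring
    show z.1 (p + c * t - c * z.2) (y + c * t - c * z.2)
    rw [e1, e2]
    exact k2

theorem bjr_res_main (h1 : St_BIN) (L1 L2 : List ((Z → Z → Prop) × Z)) (M : Ter) (t : Z)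
    (e0 : Bool) (hL1 : AllTy L1) (hL2 : AllTy L2) (hM : M2 e0 M)
    (hnz : t ≠ 0 ∨ ∃ z ∈ L1 ++ L2, z.2 ≠ 0) (e : Bool) (S : Z → Z → Prop) (hS : Ty e S)
    (hc : ¬ (L1 = [] ∧ L2 = []) ∨ Ty2 e S) :
    ∃ x y, S y x ∧ ∃ c, isQ c = true ∧ ∃ p q, ch (scale c L1) x p ∧
      flex M (p - c * t) (q - c * t) ∧ ch (scale c L2) q y := by
  have hsh : ∀ L, AllTy L → AllTy (bjrSh t L) := by
    intro L hL w hw
    obtain ⟨z, hz, rfl⟩ := List.mem_map.1 hw
    exact hL z hz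
  have hK : AllTy (bjrSh t L1 ++ (S, -t) :: bjrSh t L2) := by
    intro w hw
    rcases List.mem_append.1 hw with h | h
    · exact hsh L1 hL1 w h
    · rcases List.mem_cons.1 h with h | h
      · exact ⟨e, by rw [h]; exact hS⟩
      · exact hsh L2 hL2 w h
  have hKz : ∃ z ∈ bjrSh t L1 ++ (S, -t) :: bjrSh t L2, z.2 ≠ 0 := by
    by_cases ht : t = 0
    · rcases hnz with h | ⟨z, hz, hz0⟩
      · exact absurd ht h
      · have hz1 : z.2 - t ≠ 0 := by rw [ht, sub_zero]; exact hz0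
        refine ⟨(z.1, z.2 - t), ?_, hz1⟩
        rcases List.mem_append.1 hz with h | h
        · exact List.mem_append_left _ (List.mem_map.2 ⟨z, h, rfl⟩)
        · exact List.mem_append_right _ (List.mem_cons_of_mem _ (List.mem_map.2 ⟨z, h, rfl⟩))
    · exact ⟨(S, -t), List.mem_append_right _ (List.mem_cons_self ..), neg_ne_zero.2 ht⟩
  have hKc : 2 ≤ (bjrSh t L1 ++ (S, -t) :: bjrSh t L2).length ∨
      ∀ z ∈ bjrSh t L1 ++ (S, -t) :: bjrSh t L2, ∃ e, Ty2 e z.1 := by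
    by_cases hn : L1 = [] ∧ L2 = []
    · rcases hc with hc | hc
      · exact absurd hn hc
      · right
        obtain ⟨rfl, rfl⟩ := hn
        intro z hz
        have hz' : z = (S, -t) := by simpa [bjrSh] using hz
        exact ⟨e, by rw [hz']; exact hc⟩
    · left
      have hl : L1.length ≠ 0 ∨ L2.length ≠ 0 := by
        by_contra hh
        rw [not_or, not_not, not_not, List.length_eq_zero_iff, List.length_eq_zero_iff] at hh
        exact hn hh
      simp only [bjrSh, List.length_append, List.length_cons, List.length_map]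
      omega
  obtain ⟨p, q, ⟨_, c, hcQ, hch⟩, hf⟩ := hM.1 _ ((h1 _ hK hKz e0).2 hKc)
  have e1 : scale c (bjrSh t L1 ++ (S, -t) :: bjrSh t L2) =
      scale c (bjrSh t L1) ++ (S, c * -t) :: scale c (bjrSh t L2) := by
    simp [scale]
  rw [e1, bjr_ch_append] at hch
  obtain ⟨x, ⟨y, k2, kS⟩, k1⟩ := hch
  refine ⟨x + c * t, y + c * t, ?_, c, hcQ, p + c * t, q + c * t, bjr_ch_sh c t L1 x p k1, ?_,
    bjr_ch_sh c t L2 q y k2⟩
  · have e2 : y + c * t = y - c * -t := by ring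
    have e3 : x + c * t = x - c * -t := by ring
    rw [e2, e3]
    exact kS
  · rw [add_sub_cancel_right, add_sub_cancel_right]
    exact hf

theorem blk_RES (h1 : St_BIN) (h2 : St_OP) : St_RES := by
  intro L1 L2 M t e0 hL1 hL2 hs hM hnz e
  refine ⟨?_, ?_⟩
  · intro S hS
    obtain ⟨x, y, ⟨hp, hxy⟩, c, hc, p, q, k1, kf, k2⟩ :=
      bjr_res_main h1 L1 L2 M t e0 hL1 hL2 hM hnz e _ (Or.inr (bjr_ty2_par hS))
        (Or.inr (bjr_ty2_par hS))
    exact ⟨x, y, hxy, fun r => ⟨by rw [Bool.xor_comm]; exact hp, c, hc, p, q, k1, kf _, k2⟩⟩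
  · intro d μ
    by_cases hn : L1 = [] ∧ L2 = []
    · obtain ⟨rfl, rfl⟩ := hn
      have ht : t ≠ 0 := by
        rcases hnz with h | ⟨z, hz, _⟩
        · exact h
        · simp at hz
      obtain ⟨p, q, hT, hpq⟩ := hM.2 d μ
      obtain ⟨c, hc, hpar⟩ := h2.2 e t p q ht (bjr_ar_ne hT.1)
      refine ⟨c * p + t, c * q + t, ⟨bjr_ar_mul d c t p q hc hT.1, hpar⟩, hpar, 1, bjr_isQ_one,
        c * p + t, c * q + t, rfl, ?_, rfl⟩
      have e1 : c * p + t - 1 * t = c * p := by ring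
      have e2 : c * q + t - 1 * t = c * q := by ring
      have e3 : c * p + t + μ * (c * q + t - (c * p + t)) - 1 * t = c * (p + μ * (q - p)) := by
        ring
      rw [e1, e2, e3]
      exact hs c hc _ _ _ hpq
    · obtain ⟨x, y, hxy, c, hc, p, q, k1, kf, k2⟩ :=
        bjr_res_main h1 L1 L2 M t e0 hL1 hL2 hM hnz e _ (bjr_T1_ty d e) (Or.inl hn)
      exact ⟨x, y, hxy, hxy.2, c, hc, p, q, k1, kf _, k2⟩

end Pool.Agent.OC66
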