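import Pool.Agent.Lib.OC.Blue

set_option autoImplicit false

namespace Pool.Agent.OC66

namespace CLKF

/-- the relation stored in the bits of `m` -/
def bt (m : ℕ) (x y : Z) : Prop := m.testBit (11 * x.val + y.val) = true

instance (m : ℕ) (x y : Z) : Decidable (bt m x y) := by unfold bt; infer_instance

instance (d : Bool) (x y : Z) : Decidable (ar d x y) :=
  inferInstanceAs (Decidable ((if d = true then isQ (y - x) else isQ (x - y)) = true))

instance (d e : Bool) (x y : Z) : Decidable (T1 d e x y) :=
  inferInstanceAs (Decidable (ar d x y ∧ xor (isQ x) (isQ y) = e))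

/-- the minimal typed relations -/
def mins : Bool → List ℕ
  | false => [249261029361103572593878868041942468, 338803729820528663575437310557257728,
      256070868540967652460282279452790784, 420925977960182460497198306511867904,
      505301079528626758050857057840582656, 583185552175551969329243650177159168,
      1419145127177957332233595399199313920, 1829336837856716040413309704956071936,
      1833231080036782774456412831825842176, 1584000869049123668865838053438050304,
      255747617637909453106935284677853184, 420602727057124261143851311736930304,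
      504977828625568558697510063065645056, 582862301272493769975896655402221568,
      1418821876274899132880248404424376320, 1829013586953657841059962710181134336,
      1832907829133724575103065837050904576, 1583677618146065469512491058663112704,
      255756491192111050487706655160057856, 420611600611325858524622682219134976,
      504986702179770156078281433547849728, 582871174826695367356668025884426240,
      1418830749829100730261019774906580992, 1829022460507859438440734080663339008,
      1832916702687926172483837207533109248, 1583686491700267066893262429145317376,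
      256056924384365123282494759403327488, 420912033803579931319410786462404608,
      505287135372024228873069537791119360, 583171608018949440151456130127695872,
      1419131183021354803055807879149850624, 1829322893700113511235522184906608640,
      1833217135880180245278625311776378880, 1583986924892521139688050533388587008,
      255752688240310347649432837053038592, 420607797659525155686348864112115712,
      504982899227969453240007615440830464, 582867371874894664518394207777406976,
      1418826946877300027422745956799561728, 1829018657556058735602460262556319744,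
      1832912899736125469645563389426089984, 1583682688748466364054988611038298112,
      255737476433107626767421582735409152, 420592585852322434804337609794486272,
      504967687420766732357996361123201024, 582852160067691943636382953459777536,
      1418811735070097306540734702481932288, 1829003445748856014720449008238690304,
      1832897687928922748763552135108460544, 1583667476941263643172977356720668672]
  | true => [708951996523502285886858091691771904, 31886642278612873222992055664517690,
      76222095703727376214437197645752320, 699297723603504079422038449771653120,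
      720066915442931887975816549236615168, 730451351327216604510689591311607808,
      738239952593346995135453652614785024, 76183432360420412860041707158642688,
      699259060260197116067642959284543488, 720028252099624924621421058749505536,
      730412687983909641156294100824498176, 738201289250040031781058162127675392,
      76062371728098621472695737018624000, 699137999627875324680296989144524800,
      719907191467303133234075088609486848, 730291627351587849768948130684479488,
      738080228617718240393712191987656704, 75575593897610972304327381953030144,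
      698651221797387675511928634078930944, 719420413636815484065706733543892992,
      729804849521100200600579775618885632, 737593450787230591225343836922062848,
      76143501366513191401649113297455104, 699219129266289894609250365423355904,
      719988321105717703163028464888317952, 730372756990002419697901506963310592,
      738161358256132810322665568266487808]

/-- all residues -/
def res : List ℕ := [0, 1, 2, 3, 4, 5, 6, 7, 8, 9, 10]

/-- row `x` of the composite contains a member of `F` -/
def rowc (m1 m2 x : ℕ) (F : List (List Z)) : Bool :=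
  F.any fun A => A.all fun y => res.any fun p =>
    m1.testBit (11 * x + p) && m2.testBit (11 * p + y.val)

/-- arcs starting at `1`, `-1`, `0` -/
def prs : Bool → Bool → List (ℕ × ℕ)
  | false, false => [(1, 3), (1, 9), (10, 6), (10, 7), (0, 2), (0, 6), (0, 7), (0, 8), (0, 10)]
  | false, true => [(1, 0), (1, 7), (1, 8), (10, 1), (10, 5), (10, 9)]
  | true, false => [(1, 4), (1, 5), (10, 0), (10, 2), (10, 8)]
  | true, true => [(1, 2), (1, 6), (1, 10), (10, 3), (10, 4), (0, 1), (0, 3), (0, 4), (0, 5), (0, 9)]

/-- the point of slope `k` on the arc `z` is a middle -/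
def hit (m1 m2 : ℕ) (z : ℕ × ℕ) (k : ℕ) : Bool :=
  m1.testBit (11 * z.1 + (z.1 + k * (z.2 + 10 * z.1)) % 11) &&
    m2.testBit (11 * ((z.1 + k * (z.2 + 10 * z.1)) % 11) + z.2)

/-- two middles of different slopes -/
def two (m1 m2 : ℕ) (L : List (ℕ × ℕ)) : Bool :=
  L.any fun z => res.any fun k => hit m1 m2 z k &&
    L.any fun z' => res.any fun k' => !(Nat.beq k k') && hit m1 m2 z' k'

theorem min_T1 : ∀ d e : Bool, ∃ m ∈ mins e, ∀ x y : Z, bt m x y → T1 d e x y := by
  decide +kernel

theorem min_AB : ∀ e : Bool, ∀ A ∈ famA e, ∀ B ∈ famB e, ∃ m ∈ mins e, ∀ x y : Z, bt m x y →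
    (isQ x = true ∧ ∃ a ∈ A, y = x * a) ∨ (isQ (-x) = true ∧ ∃ b ∈ B, y = -x * b) := by
  decide +kernel

theorem chk_CL : ∀ e1 e2 : Bool, ((mins e1).all fun m1 => (mins e2).all fun m2 =>
    rowc m1 m2 1 (famA (xor e1 e2)) && rowc m1 m2 10 (famB (xor e1 e2))) = true := by
  decide +kernel

theorem chk_M1 : ∀ e1 e2 d : Bool, ((mins e1).all fun m1 => (mins e2).all fun m2 =>
    two m1 m2 (prs d (xor e1 e2))) = true := by
  decide +kernel

theorem chk_K2 : ∀ e d : Bool, ∀ A ∈ famA e, ∀ B ∈ famB e,
    (∃ y ∈ A, T1 d e 1 y) ∨ ∃ y ∈ B, T1 d e (-1) y := by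
  decide +kernel

theorem chk_prs : ∀ d e : Bool, ∀ z ∈ prs d e,
    z.1 < 11 ∧ z.2 < 11 ∧ T1 d e (z.1 : Z) (z.2 : Z) := by
  decide +kernel

theorem res_lt : ∀ p ∈ res, p < 11 := by decide

theorem T1_inv : ∀ (d e : Bool) (x y : Z), T1 (!d) e x y → T1 d e y x := by
  decide +kernel

theorem T1_ne : ∀ (d e : Bool) (x y : Z), T1 d e x y → y - x ≠ 0 := by
  decide +kernel

theorem canc : ∀ a b t : Z, t ≠ 0 → a * t = b * t → a = b := by
  decide +kernel

theorem bt_of {m x y : ℕ} (hx : x < 11) (hy : y < 11) (h : m.testBit (11 * x + y) = true) :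
    bt m (x : Z) (y : Z) := by
  unfold bt
  rw [ZMod.val_cast_of_lt hx, ZMod.val_cast_of_lt hy]
  exact h

theorem ty_sym {e : Bool} {R : Z → Z → Prop} (h : Ty e R) : Sym R := by
  rcases h with h | h
  · exact h.1
  · exact h.1

theorem ty_inv {e : Bool} {R : Z → Z → Prop} (h : Ty e R) : Ty e fun x y => R y x := by
  rcases h with ⟨hs, d, hd⟩ | ⟨hs, h1, h2⟩
  · exact Or.inl ⟨fun c hc x y hxy => hs c hc y x hxy, !d,
      fun x y hxy => hd y x (T1_inv d e x y hxy)⟩
  · exact Or.inr ⟨fun c hc x y hxy => hs c hc y x hxy, h2, h1⟩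

theorem ty_min {e : Bool} {R : Z → Z → Prop} (h : Ty e R) :
    ∃ m ∈ mins e, ∀ x y, bt m x y → R x y := by
  rcases h with ⟨_, d, hd⟩ | ⟨hs, ⟨⟨A, hA, h1⟩, B, hB, h2⟩, _⟩
  · obtain ⟨m, hm, h⟩ := min_T1 d e
    exact ⟨m, hm, fun x y hxy => hd x y (h x y hxy)⟩
  · obtain ⟨m, hm, h⟩ := min_AB e A hA B hB
    refine ⟨m, hm, fun x y hxy => ?_⟩
    rcases h x y hxy with ⟨hx, a, ha, rfl⟩ | ⟨hx, b, hb, rfl⟩
    · have := hs x hx 1 a (h1 a ha)
      rwa [mul_one] at this
    · have := hs (-x) hx (-1) b (h2 b hb)
      rwa [neg_mul_neg, mul_one] at this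

theorem rowc_ok {m1 m2 x : ℕ} {F : List (List Z)} (hx : x < 11) (h : rowc m1 m2 x F = true) :
    ∃ A ∈ F, ∀ y ∈ A, ∃ p, bt m1 (x : Z) p ∧ bt m2 p y := by
  unfold rowc at h
  obtain ⟨A, hA, h⟩ := List.any_eq_true.1 h
  refine ⟨A, hA, fun y hy => ?_⟩
  obtain ⟨p, hp, h⟩ := List.any_eq_true.1 (List.all_eq_true.1 h y hy)
  rw [Bool.and_eq_true] at h
  refine ⟨(p : Z), bt_of hx (res_lt p hp) h.1, ?_⟩
  unfold bt
  rw [ZMod.val_cast_of_lt (res_lt p hp)]
  exact h.2

theorem rows {e1 e2 : Bool} {R1 R2 : Z → Z → Prop} (h1 : Ty e1 R1) (h2 : Ty e2 R2) :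
    RowOK (xor e1 e2) fun x y => ∃ p, R1 x p ∧ R2 p y := by
  obtain ⟨m1, hm1, k1⟩ := ty_min h1
  obtain ⟨m2, hm2, k2⟩ := ty_min h2
  have h := List.all_eq_true.1 (List.all_eq_true.1 (chk_CL e1 e2) m1 hm1) m2 hm2
  rw [Bool.and_eq_true] at h
  obtain ⟨A, hA, ha⟩ := rowc_ok (by norm_num) h.1
  obtain ⟨B, hB, hb⟩ := rowc_ok (by norm_num) h.2
  have e1' : ((1 : ℕ) : Z) = 1 := Nat.cast_one
  have e2' : ((10 : ℕ) : Z) = -1 := by decide
  rw [e1'] at ha
  rw [e2'] at hb
  refine ⟨⟨A, hA, fun y hy => ?_⟩, B, hB, fun y hy => ?_⟩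
  · obtain ⟨p, a, b⟩ := ha y hy
    exact ⟨p, k1 _ _ a, k2 _ _ b⟩
  · obtain ⟨p, a, b⟩ := hb y hy
    exact ⟨p, k1 _ _ a, k2 _ _ b⟩

theorem hit_ok {m1 m2 : ℕ} {z : ℕ × ℕ} {k : ℕ} (h1 : z.1 < 11) (h2 : z.2 < 11)
    (h : hit m1 m2 z k = true) :
    bt m1 (z.1 : Z) ((z.1 : Z) + (k : Z) * ((z.2 : Z) - (z.1 : Z))) ∧
      bt m2 ((z.1 : Z) + (k : Z) * ((z.2 : Z) - (z.1 : Z))) (z.2 : Z) := by
  unfold hit at h
  rw [Bool.and_eq_true] at h
  have hl : (z.1 + k * (z.2 + 10 * z.1)) % 11 < 11 := Nat.mod_lt _ (by norm_num)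
  have he : (((z.1 + k * (z.2 + 10 * z.1)) % 11 : ℕ) : Z) =
      (z.1 : Z) + (k : Z) * ((z.2 : Z) - (z.1 : Z)) := by
    rw [ZMod.natCast_mod]
    push_cast
    have : (10 : Z) = -1 := by decide
    rw [this]
    ring
  rw [← he]
  exact ⟨bt_of h1 hl h.1, bt_of hl h2 h.2⟩

end CLKF

open CLKF

theorem blk_CL : St_CL := by
  intro e1 e2 R1 R2 h1 h2
  refine ⟨?_, rows h1 h2, ?_⟩
  · rintro c hc x y ⟨p, a, b⟩
    exact ⟨c * p, ty_sym h1 c hc _ _ a, ty_sym h2 c hc _ _ b⟩
  · have h := rows (ty_inv h2) (ty_inv h1)
    rw [Bool.xor_comm] at h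
    obtain ⟨⟨A, hA, ha⟩, B, hB, hb⟩ := h
    refine ⟨⟨A, hA, fun y hy => ?_⟩, B, hB, fun y hy => ?_⟩
    · obtain ⟨p, a, b⟩ := ha y hy
      exact ⟨p, b, a⟩
    · obtain ⟨p, a, b⟩ := hb y hy
      exact ⟨p, b, a⟩

theorem blk_OP : St_OP := by
  refine ⟨?_, ?_⟩
  · decide +kernel
  · decide +kernel

theorem blk_KFIN : St_KFIN := by
  intro e M h d μ
  rcases h with h | h | h
  · obtain ⟨_, ⟨⟨A, hA, ha⟩, B, hB, hb⟩, _⟩ := h
    rcases chk_K2 e d A hA B hB with ⟨y, hy, h⟩ | ⟨y, hy, h⟩
    · exact ⟨1, y, h, ha y hy _⟩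
    · exact ⟨-1, y, h, hb y hy _⟩
  · obtain ⟨e1, e2, R1, R2, rfl, h1, h2, hM⟩ := h
    obtain ⟨m1, hm1, k1⟩ := ty_min h1
    obtain ⟨m2, hm2, k2⟩ := ty_min h2
    have h := List.all_eq_true.1 (List.all_eq_true.1 (chk_M1 e1 e2 d) m1 hm1) m2 hm2
    unfold two at h
    obtain ⟨z, hz, h⟩ := List.any_eq_true.1 h
    obtain ⟨k, hk, h⟩ := List.any_eq_true.1 h
    rw [Bool.and_eq_true] at h
    obtain ⟨hh, h⟩ := h
    obtain ⟨z', hz', h⟩ := List.any_eq_true.1 h
    obtain ⟨k', hk', h⟩ := List.any_eq_true.1 h
    rw [Bool.and_eq_true] at h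
    obtain ⟨hne, hh'⟩ := h
    have key : ∀ z ∈ prs d (xor e1 e2), ∀ k : ℕ, hit m1 m2 z k = true → (k : Z) ≠ μ →
        ∃ x y, T1 d (xor e1 e2) x y ∧ M x y (x + μ * (y - x)) := by
      intro z hz k hh hk
      obtain ⟨a, b, c⟩ := chk_prs d _ z hz
      obtain ⟨u, v⟩ := hit_ok a b hh
      refine ⟨_, _, c, hM _ _ _ _ (k1 _ _ u) (k2 _ _ v) fun hc => hk ?_⟩
      exact canc _ _ _ (T1_ne _ _ _ _ c) (add_left_cancel hc)
    by_cases hk1 : (k : Z) = μ
    · refine key z' hz' k' hh' fun hc => ?_
      have : (k : Z).val = (k' : Z).val := by rw [hk1, hc]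
      rw [ZMod.val_cast_of_lt (res_lt k hk), ZMod.val_cast_of_lt (res_lt k' hk')] at this
      subst this
      simp at hne
    · exact key z hz k hh hk1
  · exact h.2 d μ

end Pool.Agent.OC66
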