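import Pool.Agent.Lib.OC.Blue
import Pool.Agent.Lib.MP_bfaad3_co.Jordan

set_option autoImplicit false

namespace Pool.Agent.OC66

open Equiv Pool.Agent.Lib.MP_bfaad3_co

theorem jord_gen {D W : Type} [Finite D] {σ al : Perm D} {be : D → W}
    (hα : ∀ d, al (al d) = d) (hr1 : ∀ d, be (σ d) = be d)
    (hr2 : ∀ d e, be d = be e → σ.SameCycle d e) (h0 : Gen0 σ al) {c : ℕ → D} {n : ℕ}
    (hn : 0 < n) (hch : ∀ i, be (al (c i)) = be (c (i + 1))) (hper : ∀ i, c (i + n) = c i)
    (hcs : ∀ i j, c i ≠ al (c j))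
    (hinj : ∀ i j, i < n → j < n → be (c i) = be (c j) → i = j) :
    ∃ S : Set D, (∀ d, d ∈ S ↔ σ (al d) ∈ S) ∧ ∀ d, (d ∈ S ∧ al d ∉ S) ↔ ∃ i, d = c i := by
  classical
  have jeq : ∀ {i j : ℕ}, i ≡ j [MOD n] → c i = c j := fun {i j} h => by
    have hp : Function.Periodic c n := hper
    rw [← hp.map_mod_nat i, ← hp.map_mod_nat j, h]
  have jmod : ∀ {i j : ℕ}, be (c i) = be (c j) → i ≡ j [MOD n] := fun {i j} h =>
    hinj _ _ (Nat.mod_lt _ hn) (Nat.mod_lt _ hn)
      (by rw [jeq (Nat.mod_modEq i n), jeq (Nat.mod_modEq j n), h])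
  have jpow : ∀ (d : D) (t : ℕ), be ((σ ^ t) d) = be d := fun d t => by
    induction t with
    | zero => rfl
    | succ t ih => rw [pow_succ', Perm.mul_apply, hr1, ih]
  let I : Set D := {d | ∃ i, d = c i ∨ d = al (c i)}
  have hI0 : ∀ d, d ∈ I → al d ∈ I := by
    rintro _ ⟨i, rfl | rfl⟩
    · exact ⟨i, Or.inr rfl⟩
    · exact ⟨i, Or.inl (hα _)⟩
  have hI : ∀ d, d ∈ I ↔ al d ∈ I := fun d => ⟨hI0 d, fun h => by
    have := hI0 _ h
    rwa [hα] at this⟩
  have hI' : ∀ d, d ∈ Iᶜ ↔ al d ∈ Iᶜ := fun d => not_congr (hI d)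
  let s := σ * restr al hα I hI
  let a := restr al hα Iᶜ hI'
  have s1 : ∀ d, d ∈ I → s d = σ (al d) := fun d h => congrArg σ (jor_restr_mem h)
  have s2 : ∀ d, d ∉ I → s d = σ d := fun d h => congrArg σ (jor_restr_not h)
  have a1 : ∀ d, d ∈ I → a d = d := fun d h => jor_restr_not (not_not.2 h)
  have a2 : ∀ d, d ∉ I → a d = al d := fun d h => jor_restr_mem h
  have sa : s * a = σ * al := by
    ext1 d
    by_cases h : d ∈ I
    · rw [Perm.mul_apply, a1 d h, s1 d h]; rfl
    · rw [Perm.mul_apply, a2 d h, s2 (al d) (mt (hI d).2 h)]; rfl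
  have cA : cyc al + n ≤ cyc a := by
    have p1 : ∀ d, al d ∈ I ↔ d ∈ I := fun d => (hI d).symm
    have p2 : ∀ d, a d ∈ I ↔ d ∈ I := fun d => by
      by_cases h : d ∈ I
      · rw [a1 d h]
      · rw [a2 d h]; exact p1 d
    rw [cyc_add al (· ∈ I) p1, cyc_add a (· ∈ I) p2]
    have e1 : a.subtypePerm (p := fun d => ¬ d ∈ I) (fun d => not_congr (p2 d)) =
        al.subtypePerm (p := fun d => ¬ d ∈ I) fun d => not_congr (p1 d) :=
      Equiv.ext fun d => Subtype.ext (a2 d.1 d.2)
    have e2 : a.subtypePerm (p := (· ∈ I)) p2 = 1 := Equiv.ext fun d => Subtype.ext (a1 d.1 d.2)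
    have e3 := jor_cyc_le (al.subtypePerm (p := (· ∈ I)) p1)
      (fun i : Fin n => ⟨c i, i, Or.inl rfl⟩) (by
        rintro ⟨_, i, rfl | rfl⟩
        · refine ⟨⟨i % n, Nat.mod_lt _ hn⟩, Perm.sameCycle_subtypePerm.2 ?_⟩
          exact (jeq (Nat.mod_modEq i n)).sameCycle _
        · refine ⟨⟨i % n, Nat.mod_lt _ hn⟩, Perm.sameCycle_subtypePerm.2 ?_⟩
          exact ((jeq (Nat.mod_modEq i n)).sameCycle _).apply_right)
    have e4 := jor_le_cyc (1 : Perm {d // d ∈ I})
      (Sum.elim (fun i : Fin n => ⟨c i, i, Or.inl rfl⟩)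
        fun i : Fin n => ⟨al (c i), i, Or.inr rfl⟩)
      (by
        rintro (i | i) (j | j) h <;> replace h := congrArg Subtype.val (Perm.sameCycle_one.1 h)
        · exact congrArg _ (Fin.ext (hinj _ _ i.2 j.2 (congrArg be h)))
        · exact absurd h (hcs _ _)
        · exact absurd h.symm (hcs _ _)
        · exact congrArg _ (Fin.ext (hinj _ _ i.2 j.2 (congrArg be (al.injective h)))))
    rw [e1, e2]
    simp only [Nat.card_eq_fintype_card, Fintype.card_fin, Fintype.card_sum] at e3 e4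
    omega
  have cS : cyc σ + 1 ≤ cyc s + n := by
    have p1 : ∀ d, (∃ i, be (σ d) = be (c i)) ↔ ∃ i, be d = be (c i) := fun d => by rw [hr1]
    have p0 : ∀ d, d ∈ I → ∃ i, be d = be (c i) := by
      rintro _ ⟨i, rfl | rfl⟩
      · exact ⟨i, rfl⟩
      · exact ⟨i + 1, hch i⟩
    have p2 : ∀ d, (∃ i, be (s d) = be (c i)) ↔ ∃ i, be d = be (c i) := fun d => by
      by_cases h : d ∈ I
      · rw [s1 d h, p1]; exact iff_of_true (p0 _ (hI0 d h)) (p0 d h)
      · rw [s2 d h, p1]
    rw [cyc_add σ (fun d => ∃ i, be d = be (c i)) p1,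
      cyc_add s (fun d => ∃ i, be d = be (c i)) p2]
    have e1 : s.subtypePerm (p := fun d => ¬ ∃ i, be d = be (c i)) (fun d => not_congr (p2 d)) =
        σ.subtypePerm (p := fun d => ¬ ∃ i, be d = be (c i)) fun d => not_congr (p1 d) :=
      Equiv.ext fun d => Subtype.ext (s2 d.1 (mt (p0 d.1) d.2))
    have e3 := jor_cyc_le (σ.subtypePerm (p := fun d => ∃ i, be d = be (c i)) p1)
      (fun i : Fin n => ⟨c i, i, rfl⟩) (by
        rintro ⟨d, i, h⟩
        refine ⟨⟨i % n, Nat.mod_lt _ hn⟩, Perm.sameCycle_subtypePerm.2 (hr2 _ _ ?_)⟩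
        exact (congrArg be (jeq (Nat.mod_modEq i n))).trans h.symm)
    have e4 := jor_le_cyc (s.subtypePerm (p := fun d => ∃ i, be d = be (c i)) p2)
      (fun _ : Unit => ⟨c 0, 0, rfl⟩) fun _ _ _ => rfl
    rw [e1]
    simp only [Nat.card_eq_fintype_card, Fintype.card_fin, Fintype.card_unique] at e3 e4
    omega
  have hlt : comp σ al < comp s a := by
    have h1 := euler_le s a
    rw [sa] at h1
    unfold Gen0 at h0
    omega
  let r := conn s a
  have rs : ∀ d, r d (s d) := fun d => Relation.EqvGen.rel _ _ (Or.inl rfl)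
  have ra : ∀ d, r d (a d) := fun d => Relation.EqvGen.rel _ _ (Or.inr rfl)
  have step : ∀ i x y, be y = be (c (i + 1)) → y ≠ c (i + 1) → y ≠ al (c i) → r x y →
      r x (σ y) := by
    intro i x y h1 h2 h3 h4
    rw [← s2 y]
    · exact r.trans h4 (rs y)
    · rintro ⟨j, rfl | rfl⟩
      · exact h2 (jeq (jmod h1))
      · exact h3 (congrArg _ (jeq (Nat.ModEq.add_right_cancel' 1
          (jmod ((hch j).symm.trans h1)))))
  have fs : ∀ {x y : D}, σ.SameCycle x y → be y = be x := fun h => by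
    obtain ⟨m, -, rfl⟩ := h.exists_pow_eq'
    exact jpow _ m
  have r1 : ∀ i, r (c 0) (c i) := by
    intro i
    induction i with
    | zero => exact r.refl _
    | succ i ih =>
      refine jor_walk σ (r (c 0)) (hr2 (al (c i)) _ (hch i)) (hcs (i + 1) i).symm ?_
        fun y h1 h2 h3 => step i _ y ((fs h1).trans (hch i)) h3 h2
      rw [← s1 _ ⟨i, Or.inl rfl⟩]
      exact r.trans ih (rs _)
  have r2 : ∀ i, r (al (c 0)) (al (c i)) := by
    intro i
    induction i with
    | zero => exact r.refl _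
    | succ i ih =>
      refine r.trans ih (r.symm ?_)
      refine jor_walk σ (r (al (c (i + 1)))) (hr2 _ (al (c i)) (hch i).symm) (hcs (i + 1) i) ?_
        fun y h1 h2 h3 => step i _ y (fs h1) h2 h3
      have := rs (al (c (i + 1)))
      rwa [s1 _ ⟨i + 1, Or.inr rfl⟩, hα] at this
  have hsep : ¬ r (c 0) (al (c 0)) := by
    intro h
    have hall : ∀ d, d ∈ I → r (c 0) d := by
      rintro _ ⟨i, rfl | rfl⟩
      · exact r1 i
      · exact r.trans h (r2 i)
    have hsy : ∀ d, r d (al d) := fun d => by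
      by_cases hd : d ∈ I
      · exact r.trans (r.symm (hall d hd)) (hall _ (hI0 d hd))
      · rw [← a2 d hd]; exact ra d
    refine absurd (jor_card_le (r := conn σ al) (s := r) fun x y hxy => ?_) (not_le.2 hlt)
    induction hxy with
    | rel x y h =>
      rcases h with rfl | rfl
      · by_cases hd : x ∈ I
        · have := rs (al x)
          rw [s1 _ (hI0 x hd), hα] at this
          exact r.trans (hsy x) this
        · rw [← s2 x hd]; exact rs x
      · exact hsy x
    | refl x => exact r.refl x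
    | symm x y _ ih => exact r.symm ih
    | trans x y z _ _ ih ih' => exact r.trans ih ih'
  refine ⟨{d | r (c 0) d}, fun d => ?_, fun d => ⟨fun ⟨h1, h2⟩ => ?_, ?_⟩⟩
  · have h1 : r d (σ (al d)) := by
      have e : σ (al d) = s (a d) := (congrArg (fun p : Perm D => p d) sa).symm
      rw [e]; exact r.trans (ra d) (rs _)
    exact ⟨fun h => r.trans h h1, fun h => r.trans h (r.symm h1)⟩
  · by_cases hd : d ∈ I
    · obtain ⟨i, rfl | rfl⟩ := hd
      · exact ⟨i, rfl⟩
      · refine absurd ?_ h2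
        rw [hα]
        exact r1 i
    · exact absurd (r.trans h1 (a2 d hd ▸ ra d)) h2
  · rintro ⟨i, rfl⟩
    exact ⟨r1 i, fun h => hsep (r.trans h (r.symm (r2 i)))⟩

theorem blk_JORD : St_JORD := by
  intro D W _ al ph be T cs hne hcyc hnd hal
  have hn : 0 < cs.length := List.length_pos_iff.2 hne
  let c : ℕ → D := fun i => cs[i % cs.length]'(Nat.mod_lt _ hn)
  have hmem : ∀ i, c i ∈ cs := fun i => List.getElem_mem _
  have hch : ∀ i, be (al (c i)) = be (c (i + 1)) := by
    intro i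
    have h1 : i % cs.length < (cs.map fun d => be (al d)).length := by
      rw [List.length_map]; exact Nat.mod_lt _ hn
    have h2 := List.getElem_of_eq hcyc h1
    rw [List.getElem_map, List.getElem_rotate, List.getElem_map] at h2
    refine h2.trans (congrArg be ?_)
    refine getElem_congr_idx ?_
    rw [List.length_map, Nat.mod_add_mod]
  obtain ⟨S, hS1, hS2⟩ := jord_gen (σ := ph * al) (al := al) (be := be) T.al2
    (fun d => by rw [Perm.mul_apply, T.hd, T.al2]) T.vx T.g0 (c := c) hn hch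
    (fun i => getElem_congr_idx (Nat.add_mod_right _ _))
    (fun i j h => hal _ (hmem j) (h ▸ hmem i))
    (fun i j hi hj h => by
      have h1 : i < (cs.map be).length := by rw [List.length_map]; exact hi
      have h2 : j < (cs.map be).length := by rw [List.length_map]; exact hj
      refine (List.Nodup.getElem_inj_iff hnd (hi := h1) (hj := h2)).1 ?_
      rw [List.getElem_map, List.getElem_map]
      have e1 : c i = cs[i] := getElem_congr_idx (Nat.mod_eq_of_lt hi)
      have e2 : c j = cs[j] := getElem_congr_idx (Nat.mod_eq_of_lt hj)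
      rw [← e1, ← e2, h])
  refine ⟨S, fun d => ?_, fun d => (hS2 d).trans ⟨?_, fun h => ?_⟩⟩
  · have := hS1 d
    rwa [Perm.mul_apply, T.al2] at this
  · rintro ⟨i, rfl⟩
    exact hmem i
  · obtain ⟨i, hi, rfl⟩ := List.getElem_of_mem h
    exact ⟨i, (getElem_congr_idx (Nat.mod_eq_of_lt hi)).symm⟩

end Pool.Agent.OC66
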