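import Pool.Agent.Lib.OC.Blue

set_option autoImplicit false

namespace Pool.Agent.OC66

theorem main_ok {W : Type} {o : W → W → Bool} (ho : Tour o) {u v : W} (huv : u ≠ v)
    {c : W → Col} {su sv : Z} {bu bv : Bool} (hu : c u = (0, su, bu)) (hv : c v = (1, sv, bv))
    (hb : bv = xor (isQ (su - sv)) (o v u)) : ok o c u v := by
  have h01 : ¬ ((0 : ZMod 3) = 1) := by decide
  have h02 : ¬ ((0 : ZMod 3) = 1 + 1) := by decide
  have h10 : ¬ ((1 : ZMod 3) = 0) := by decide
  have h11 : (1 : ZMod 3) = 0 + 1 := by decide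
  unfold ok
  rw [hu, hv, hb, ho u v huv]
  unfold arc
  simp only [if_neg h01, if_neg h02, if_neg h10, if_pos h11]
  cases o u v <;> cases isQ (su - sv) <;> simp

theorem main_top {W : Type} {o : W → W → Bool} {w u : W} {z : W × W × Ter}
    {es : List (W × W × Ter)} (h : StkM o w (z :: es) u) {s : W → Z} {b : W → Bool} {x y r : Z}
    (hL : Lft o s b (z :: es) x y r) : b z.1 = xor (isQ (y - s z.1)) (o z.1 u) := by
  have hp : ParT (xor (o z.1 z.2.1) (o z.1 u)) z.2.2 := by
    rcases h with h | h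
    · exact h.1.2.1
    · exact h.1.2.1
  obtain ⟨p, -, h1, h2⟩ := hL
  have h3 := hp _ _ _ h1
  rw [h2]
  revert h3
  cases isQ (p - s z.1) <;> cases isQ (y - s z.1) <;> cases o z.1 z.2.1 <;> cases o z.1 u <;> simp

theorem blk_MIXD : St_MIXD := by
  classical
  intro W o ho u v Y huv hY w u' v1 a1 N es hu hw hrev hS _
  obtain rfl : u = u' := by simpa using hu
  have hes : es = [] := by
    have := congrArg List.length hrev
    simpa using this
  subst hes
  obtain rfl : v1 = v := by simpa using hrev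
  refine ⟨N, hS.imp And.left And.left, fun x y r hN => ?_⟩
  have e1 : (if v1 = u then y else (0 : Z)) = 0 := if_neg huv.symm
  have hL : Lft o (fun t => if t = u then y else 0) (fun _ => xor (isQ x) (o v1 a1))
      [(v1, a1, N)] x y r := ⟨x, rfl, by simpa only [e1, sub_zero] using hN, by
    simp only [e1, sub_zero]⟩
  refine ⟨fun t => if t = u then y else 0, fun _ => xor (isQ x) (o v1 a1), e1, if_pos rfl,
    fun h => absurd (List.mem_singleton.1 h) hw, by simpa using hL, fun b' => hY _ ?_⟩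
  refine main_ok ho huv (su := y) (sv := 0) (bu := b' u) (by simp) (by simp [huv.symm]; rfl) ?_
  have := main_top (es := []) hS hL
  simpa only [e1] using this

theorem blk_MIXN : St_MIXN := by
  classical
  intro W o ho u z v y us vs Y Y' hnd hM hY w u' v1 a1 N es hu hw hrev hS hU
  obtain rfl : u = u' := by simpa using hu
  have hE : EntU o y u u fun x y _ => x = y :=
    ⟨fun c _ x y _ h => by rw [show x = y from h], fun x y _ h => by
      rw [show x = y from h]; simp, Or.inl ⟨rfl, fun _ _ => rfl⟩⟩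
  obtain ⟨M, h1, h2⟩ := hM w u v1 a1 N ((y, u, fun x y _ => x = y) :: es) rfl hw
    (by rw [List.cons_append, List.map_cons, List.reverse_cons, hrev]; simp)
    (Or.inl ⟨hE, hS⟩) fun h => ⟨hE, hU h⟩
  refine ⟨M, h1, fun x y' r h => ?_⟩
  obtain ⟨s, b, a1', a2, a3, ⟨p, a4, a5, -⟩, a6⟩ := h2 x y' r h
  obtain rfl : p = s u := sub_left_injective a5
  refine ⟨s, b, a1', a2, a3, a4, fun b' => hY _ (a6 b') ?_⟩
  have hv : v ∉ u :: us := fun h => (List.nodup_append.1 hnd).2.2 v h v (by simp) rfl
  have huv : u ≠ v := fun h => hv (by simp [h])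
  refine main_ok ho huv (su := s u) (sv := s v) (bu := b' u) (bv := b v) (by simp) (if_neg hv) ?_
  replace a4 : Lft o s b (es ++ [(v1, a1, N)]) x (s u) r := a4
  generalize es ++ [(v1, a1, N)] = st at hrev hS a4
  cases st with
  | nil => simp at hrev
  | cons t st =>
    obtain rfl : t.1 = v := by
      rw [List.map_cons, List.reverse_cons] at hrev
      simpa using (List.append_inj' hrev rfl).2
    exact main_top hS a4

theorem blk_MAIN (h1 : St_PURES) (h2 : St_PUREN) (h3 : St_MIXD) (h4 : St_MIXN) (h5 : St_MIXU)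
    (h6 : St_MIXV) : St_MAIN := by
  classical
  intro W o ho Hole S
  have key : ∀ n l Y, Hole n l Y → (∀ x m z, l = x :: (m ++ [z]) → Pure o x m z Y) ∧
      ∀ u us z vs v, l = (u :: us) ++ (vs ++ [v]) → (u :: us).getLast? = some z →
        Mixed o (u :: us) z (vs ++ [v]) Y := by
    intro n
    induction n using Nat.strong_induction_on with
    | _ n ih =>
    intro l Y H
    constructor
    · rintro x m z rfl
      have hnd := S.nodup _ _ _ H
      rcases S.peel _ _ _ _ _ H with ⟨rfl, hY⟩ | ⟨y, n', Y', hn, H', hY⟩ |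
        ⟨m1, y, m2, n1, n2, Y1, Y2, rfl, hn1, hn2, H1, H2, hY⟩
      · have hxz : z ≠ x := fun h => by simp [h] at hnd
        intro w p q r hpq
        refine ⟨fun t => if t = x then p else q, if_pos rfl, if_neg hxz, by simp,
          fun b => hY _ ?_⟩
        unfold ok arc
        unfold ar at hpq
        simpa only [if_neg hxz, if_true] using hpq
      · exact h2 W o ho x y z m Y Y' (S.nodup _ _ _ H') (S.loc _ _ _ H) (S.aut _ _ _ H)
          ((ih n' hn _ _ H').2 x (m ++ [z]) z [] y (by simp) (by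
            rw [← List.cons_append, List.getLast?_concat])) hY
      · exact h1 W o ho x y z m1 m2 Y Y1 Y2 hnd (S.loc _ _ _ H1) (S.loc _ _ _ H2)
          ((ih n1 hn1 _ _ H1).1 _ _ _ rfl) ((ih n2 hn2 _ _ H2).1 _ _ _ rfl) hY
    · rintro u us z vs v rfl hz
      have hnd := S.nodup _ _ _ H
      have H0 : Hole n (u :: ((us ++ vs) ++ [v])) Y := by simpa using H
      have hV : ∀ a' y m2 n1 n2 Y1 Y2, vs = a' ++ y :: m2 → n1 < n → n2 < n →
          Hole n1 (u :: ((us ++ a') ++ [y])) Y1 → Hole n2 (y :: (m2 ++ [v])) Y2 →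
          (∀ c, Y1 c → Y2 c → ok o c u v → Y c) → Mixed o (u :: us) z (vs ++ [v]) Y := by
        rintro a' y m2 n1 n2 Y1 Y2 rfl hn1 hn2 H1 H2 hY
        have H1' : Hole n1 ((u :: us) ++ (a' ++ [y])) Y1 := by simpa using H1
        have := h6 W o ho u y z v us a' m2 Y Y1 Y2 hz (by simpa using hnd) (S.loc _ _ _ H1')
          (S.loc _ _ _ H2) (S.aut _ _ _ H2) ((ih n1 hn1 _ _ H1').2 _ _ _ _ _ rfl hz)
          ((ih n2 hn2 _ _ H2).1 _ _ _ rfl) hY
        simpa only [List.append_assoc, List.cons_append] using this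
      rcases S.peel _ _ _ _ _ H0 with ⟨hm, hY⟩ | ⟨y, n', Y', hn, H', hY⟩ |
        ⟨m1, y, m2, n1, n2, Y1, Y2, hm, hn1, hn2, H1, H2, hY⟩
      · obtain ⟨rfl, rfl⟩ := List.append_eq_nil_iff.1 hm
        obtain rfl : u = z := by simpa using hz
        exact h3 W o ho u v Y (fun h => by simp [h] at hnd) hY
      · have H'' : Hole n' ((u :: us) ++ ((vs ++ [v]) ++ [y])) Y' := by simpa using H'
        have := (ih n' hn _ _ H'').2 _ _ _ _ _ rfl hz
        exact h4 W o ho u z v y us vs Y Y' (by simpa using S.nodup _ _ _ H'')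
          (by simpa only [List.append_assoc, List.cons_append, List.nil_append] using this) hY
      · rcases List.append_eq_append_iff.1 hm with ⟨a', rfl, e⟩ | ⟨c', rfl, e⟩
        · exact hV a' y m2 n1 n2 Y1 Y2 e hn1 hn2 H1 H2 hY
        · cases c' with
          | nil => exact hV [] y m2 n1 n2 Y1 Y2 e.symm hn1 hn2 (by simpa using H1) H2 hY
          | cons y' c' =>
            obtain ⟨rfl, rfl⟩ := List.cons.inj e
            have H2' : Hole n2 ((y :: c') ++ (vs ++ [v])) Y2 := by simpa using H2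
            have hz' : (y :: c').getLast? = some z := by
              rwa [← List.cons_append, List.getLast?_append_of_ne_nil _ (by simp)] at hz
            exact h5 W o ho u y z v m1 c' vs Y Y1 Y2 hz' hnd (S.loc _ _ _ H1) (S.loc _ _ _ H2')
              ((ih n1 hn1 _ _ H1).1 _ _ _ rfl) ((ih n2 hn2 _ _ H2').2 _ _ _ _ _ rfl hz') hY
  intro n l Y H
  have hl := S.len _ _ _ H
  obtain ⟨x, m, z, rfl⟩ : ∃ x m z, l = x :: (m ++ [z]) := by
    cases l with
    | nil => simp at hl
    | cons x t =>
      rcases List.eq_nil_or_concat t with rfl | ⟨m, z, rfl⟩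
      · simp at hl
      · exact ⟨x, m, z, by simp⟩
  obtain ⟨p, q, hpq⟩ : ∃ p q, ar (o x z) p q := by
    cases o x z
    · exact ⟨1, 0, by unfold ar; decide⟩
    · exact ⟨0, 1, by unfold ar; decide⟩
  obtain ⟨s, -, -, -, hs⟩ := (key n _ Y H).1 x m z rfl x p q 0 hpq
  exact ⟨_, hs fun _ => false⟩

end Pool.Agent.OC66
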