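import Pool.Agent.Lib.OC.Blue

set_option autoImplicit false

namespace Pool.Agent.OC66

section mixu

variable {W : Type} (o : W → W → Bool)

theorem mixu_lft_congr (s s' : W → Z) (b b' : W → Bool) (es : List (W × W × Ter))
    (hs : ∀ v ∈ es.map Prod.fst, s v = s' v) (hb : ∀ v ∈ es.map Prod.fst, b v = b' v)
    (x y r : Z) (h : Lft o s b es x y r) : Lft o s' b' es x y r := by
  induction es generalizing y with
  | nil => exact h
  | cons z es ih =>
    obtain ⟨p, h1, h2, h3⟩ := h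
    have e1 : s z.1 = s' z.1 := hs z.1 List.mem_cons_self
    have e2 : b z.1 = b' z.1 := hb z.1 List.mem_cons_self
    refine ⟨p, ih (fun v hv => hs v (List.mem_cons_of_mem _ hv))
      (fun v hv => hb v (List.mem_cons_of_mem _ hv)) p h1, ?_, ?_⟩
    · rw [← e1]; exact h2
    · rw [← e1, ← e2]; exact h3

theorem mixu_root (hT : Tour o) (w u v : W) (huv : u ≠ v) (s : W → Z) (b : W → Bool)
    (z : W × W × Ter) (es : List (W × W × Ter)) (hz : z.1 = v) (hS : StkM o w (z :: es) u)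
    (x r : Z) (hL : Lft o s b (z :: es) x (s u) r) (col : W → Col) (bu : Bool)
    (hu : col u = (0, s u, bu)) (hv : col v = (1, s v, b v)) : ok o col u v := by
  have hP : ParT (xor (o z.1 z.2.1) (o z.1 u)) z.2.2 := by
    rcases hS with ⟨h1, -⟩ | ⟨h1, -⟩
    · exact h1.2.1
    · exact h1.2.1
  obtain ⟨p, -, h2, h3⟩ := hL
  have h4 := hP _ _ _ h2
  rw [hz] at h3 h4
  have h5 : o v u = !(o u v) := hT u v huv
  have n1 : ¬ ((0 : ZMod 3) = 1) := by decide
  have n2 : ¬ ((0 : ZMod 3) = 1 + 1) := by decide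
  have n3 : ¬ ((1 : ZMod 3) = 0) := by decide
  have n4 : (1 : ZMod 3) = 0 + 1 := by decide
  unfold ok arc
  rw [hu, hv]
  simp only [if_neg n1, if_neg n2, if_neg n3, if_pos n4]
  rw [h3]
  rw [h5] at h4
  revert h4
  generalize isQ (p - s v) = A
  generalize isQ (s u - s v) = B
  generalize o v z.2.1 = C
  generalize o u v = D
  revert A B C D
  decide

theorem mixu_top (es : List (W × W × Ter)) (v1 a1 v : W) (N : Ter) (vs : List W)
    (h : ((es ++ [(v1, a1, N)]).map Prod.fst).reverse = vs ++ [v]) :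
    ∃ a Mv rest, es ++ [(v1, a1, N)] = (v, a, Mv) :: rest ∧ rest.map Prod.fst = vs.reverse ∧
      ∀ M', ∃ es' N', es' ++ [(v1, a1, N')] = (v, a, M') :: rest := by
  have h1 : (es ++ [(v1, a1, N)]).map Prod.fst = v :: vs.reverse := by
    rw [← List.reverse_reverse ((es ++ [(v1, a1, N)]).map Prod.fst), h]; simp
  cases es with
  | nil =>
    obtain ⟨h2, h3⟩ := List.cons.inj h1
    have h4 : v1 = v := h2
    subst h4
    exact ⟨a1, N, [], rfl, h3, fun M' => ⟨[], M', rfl⟩⟩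
  | cons z es =>
    obtain ⟨v', a, Mv⟩ := z
    obtain ⟨h2, h3⟩ := List.cons.inj h1
    have h4 : v' = v := h2
    subst h4
    exact ⟨a, Mv, es ++ [(v1, a1, N)], rfl, h3, fun M' => ⟨(v', a, M') :: es, N, rfl⟩⟩

theorem mixu_isQ : ∀ c x : Z, isQ c = true → isQ (c * x) = isQ x := by decide

theorem mixu_ne : ∀ c x r : Z, isQ c = true → x ≠ r → c * x ≠ c * r := by decide

theorem mixu_T1 (d e : Bool) : Sym (T1 d e) := by
  intro c hc x y h
  unfold T1 ar at h ⊢
  rw [← mul_sub, ← mul_sub, mixu_isQ c _ hc, mixu_isQ c _ hc, mixu_isQ c _ hc, mixu_isQ c _ hc]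
  exact h

end mixu

theorem blk_MIXU (h1 : St_KCMP) : St_MIXU := by
  intro W o hT u y z v m1 m2 vs Y Y1 Y2 hlast hnd hL1 hL2 hP1 hM2 hY
  classical
  intro w u' v1 a1 N es hhead hwz hmap hSM hSU
  have hu' : u = u' := by simpa using hhead
  subst hu'
  obtain ⟨a, Mv, rest, hst, hrest, hnew⟩ := mixu_top es v1 a1 v N vs hmap
  have hd1 : ∀ x ∈ u :: (m1 ++ y :: m2), x ∉ vs ++ [v] := fun x hx hx' =>
    (List.nodup_append.mp hnd).2.2 x hx x hx' rfl
  have hnd1 : ((u :: m1) ++ y :: m2).Nodup := (List.nodup_append.mp hnd).1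
  have hd2 : ∀ x ∈ y :: m2, x ∉ u :: m1 := fun x hx hx' =>
    (List.nodup_append.mp hnd1).2.2 x hx' x hx rfl
  have hs1 : ∀ x ∈ u :: m1, x ∈ u :: (m1 ++ y :: m2) := fun x hx =>
    List.mem_append_left (y :: m2) hx
  have hs2 : ∀ x ∈ y :: m2, x ∈ u :: (m1 ++ y :: m2) := fun x hx =>
    List.mem_append_right (u :: m1) hx
  have hd3 : ∀ x ∈ vs ++ [v], x ∉ u :: m1 := fun x hx hx' => hd1 x (hs1 x hx') hx
  have huy : u ≠ y := fun e => hd2 y List.mem_cons_self (e ▸ List.mem_cons_self)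
  have hv : v ∈ vs ++ [v] := by simp
  have hz : z ∈ y :: m2 := List.mem_of_getLast? hlast
  obtain ⟨S, hS⟩ : ∃ S : Ter, S = fun x x' r =>
      T1 (o u y) (xor (o v u) (o v y)) x x' ∧ (w = u → x ≠ r) := ⟨_, rfl⟩
  have hSs : SymT S := by
    rw [hS]
    exact fun c hc x x' r h => ⟨mixu_T1 _ _ c hc x x' h.1, fun e => mixu_ne c x r hc (h.2 e)⟩
  have hSp : ParT (xor (o v u) (o v y)) S := by
    rw [hS]
    exact fun x x' r h => h.1.2
  obtain ⟨es', N', hst'⟩ := hnew (cmp Mv S)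
  have hK := h1 W o w v a u y Mv S
  rw [hst] at hSM hSU
  have hS' : StkM o w ((v, a, cmp Mv S) :: rest) y ∧
      (w ∈ y :: m2 → StkU o ((v, a, cmp Mv S) :: rest) y) := by
    by_cases hw : w = u
    · have k0 : EntM o w v u y S := ⟨hSs, hSp, Or.inl ⟨hw.symm, T1 (o u y) _,
        Or.inl ⟨mixu_T1 _ _, _, fun _ _ h => h⟩, fun x x' r h h' => by
          rw [hS]; exact ⟨h, fun _ => h'⟩⟩⟩
      obtain ⟨k1, k2⟩ := hSU (hw ▸ List.mem_cons_self)
      exact ⟨Or.inr ⟨hK.2.1 k1 k0, k2⟩,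
        fun h => absurd (hw ▸ List.mem_cons_self) (hd2 w h)⟩
    · have k0 : EntU o v u y S := ⟨hSs, hSp, Or.inr (Or.inl ⟨huy, fun x x' r h => by
        rw [hS]; exact ⟨h, fun e => absurd e hw⟩⟩)⟩
      refine ⟨?_, fun h => ?_⟩
      · rcases hSM with ⟨k1, k2⟩ | ⟨k1, k2⟩
        · exact Or.inl ⟨hK.1 k1 k0, k2⟩
        · exact Or.inr ⟨hK.2.2 k1 k0, k2⟩
      · obtain ⟨k1, k2⟩ := hSU (hs2 w h)
        exact ⟨hK.1 k1 k0, k2⟩
  have hmap' : ((es' ++ [(v1, a1, N')]).map Prod.fst).reverse = vs ++ [v] := by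
    rw [hst', List.map_cons, hrest]; simp
  have hv1 : v1 ∈ vs ++ [v] := by
    rw [← hmap']; simp
  obtain ⟨M, hM, hreal⟩ := hM2 w y v1 a1 N' es' rfl hwz hmap' (hst' ▸ hS'.1) (hst' ▸ hS'.2)
  refine ⟨M, hM, fun x y0 r hxy => ?_⟩
  obtain ⟨s2, b2, g1, g2, g3, g4, g5⟩ := hreal x y0 r hxy
  rw [hst'] at g4
  obtain ⟨p, g6, ⟨q, g7, g8⟩, g9⟩ := g4
  rw [hS] at g8
  obtain ⟨⟨g8, -⟩, g10⟩ := g8
  have har : ar (o u y) (q + s2 v) (s2 y) := by
    unfold ar at g8 ⊢
    have e1 : s2 y - (q + s2 v) = s2 y - s2 v - q := by ring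
    have e2 : q + s2 v - s2 y = q - (s2 y - s2 v) := by ring
    rw [e1, e2]
    exact g8
  obtain ⟨s1, f1, f2, f3, f4⟩ := hP1 w (q + s2 v) (s2 y) r har
  obtain ⟨s, t1, t2⟩ : ∃ s : W → Z, (∀ x ∈ u :: m1, s x = s1 x) ∧ ∀ x, x ∉ u :: m1 → s x = s2 x :=
    ⟨fun x => if x ∈ u :: m1 then s1 x else s2 x, fun x hx => if_pos hx, fun x hx => if_neg hx⟩
  have hsu : s u = q + s2 v := (t1 u List.mem_cons_self).trans f1
  have hsv : s v = s2 v := t2 v (hd3 v hv)
  have l0 : Lft o s b2 ((v, a, Mv) :: rest) x (s u) r := by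
    refine ⟨p, mixu_lft_congr o s2 s b2 b2 rest ?_ (fun _ _ => rfl) x p r g6, ?_, ?_⟩
    · intro x' hx'
      rw [hrest, List.mem_reverse] at hx'
      exact (t2 x' (hd3 x' (List.mem_append_left _ hx'))).symm
    · show Mv (p - s v) (s u - s v) (r - s v)
      rw [hsu, hsv, add_sub_cancel_right]; exact g7
    · show b2 v = xor (isQ (p - s v)) (o v a)
      rw [hsv]; exact g9
  refine ⟨s, b2, ?_, ?_, ?_, ?_, ?_⟩
  · rw [t2 v1 (hd3 v1 hv1)]; exact g1
  · rw [t2 z (hd2 z hz)]; exact g2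
  · intro hw
    rcases List.mem_cons.mp hw with h | h
    · rw [h, hsu]
      exact fun e => g10 h (eq_sub_of_add_eq e)
    · rcases List.mem_append.mp h with h | h
      · rw [t1 w (List.mem_cons_of_mem _ h)]; exact f3 h
      · rw [t2 w (hd2 w h)]; exact g3 h
  · rw [hst]; exact l0
  · intro b'
    apply hY
    · refine hL1 _ _ ?_ (f4 b')
      intro x' hx'
      rcases List.mem_append.mp (show x' ∈ (u :: m1) ++ [y] from hx') with h | h
      · simp only [if_pos (hs1 x' h), t1 x' h]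
      · rw [List.mem_singleton.mp h]
        simp only [if_pos (hs2 y List.mem_cons_self), t2 y (hd2 y List.mem_cons_self), f2]
    · refine hL2 _ _ ?_ (g5 b')
      intro x' hx'
      rcases List.mem_append.mp hx' with h | h
      · simp only [if_pos h, if_pos (hs2 x' h), t2 x' (hd2 x' h)]
      · simp only [if_neg fun h' => hd1 x' h' h, if_neg fun h' => hd1 x' (hs2 x' h') h,
          t2 x' (hd3 x' h)]
    · have huv : u ≠ v := fun e => hd1 u List.mem_cons_self (e ▸ hv)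
      exact mixu_root o hT w u v huv s b2 (v, a, Mv) rest rfl hSM x r l0 _ (b' u)
        (if_pos List.mem_cons_self) (if_neg fun h' => hd1 v h' hv)

end Pool.Agent.OC66
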