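import Pool.Agent.Lib.OC.Blue

set_option autoImplicit false

namespace Pool.Agent.OC66

section mixv

variable {W : Type} (o : W → W → Bool)

theorem mixv_stkU_append (es tl : List (W × W × Ter)) (u : W) (h : StkU o (es ++ tl) u) :
    StkU o es u ∧ StkU o tl (bot es u) := by
  induction es generalizing u with
  | nil => exact ⟨trivial, h⟩
  | cons z es ih =>
    obtain ⟨h1, h2⟩ := h
    obtain ⟨h3, h4⟩ := ih z.2.1 h2
    exact ⟨⟨h1, h3⟩, h4⟩

theorem mixv_stkM_append (w : W) (es tl : List (W × W × Ter)) (u : W)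
    (h : StkM o w (es ++ tl) u) :
    (StkU o es u ∧ StkM o w tl (bot es u)) ∨ (StkM o w es u ∧ StkU o tl (bot es u)) := by
  induction es generalizing u with
  | nil => exact Or.inl ⟨trivial, h⟩
  | cons z es ih =>
    rcases h with ⟨h1, h2⟩ | ⟨h1, h2⟩
    · rcases ih z.2.1 h2 with ⟨h3, h4⟩ | ⟨h3, h4⟩
      · exact Or.inl ⟨⟨h1, h3⟩, h4⟩
      · exact Or.inr ⟨Or.inl ⟨h1, h3⟩, h4⟩
    · obtain ⟨h3, h4⟩ := mixv_stkU_append o es tl z.2.1 h2
      exact Or.inr ⟨Or.inr ⟨h1, h3⟩, h4⟩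

theorem mixv_stkM_of_stkU (w : W) (es : List (W × W × Ter)) (u : W) (h : StkU o es u) :
    StkM o w es u := by
  induction es generalizing u with
  | nil => trivial
  | cons z es ih => exact Or.inl ⟨h.1, ih z.2.1 h.2⟩

theorem mixv_nz (es : List (W × W × Ter)) (u : W) (h : ¬ AllDeg es u) :
    ∃ v' ∈ es.map Prod.fst, ∀ t : W → Z, t v' ≠ 0 → NZ t es u := by
  induction es generalizing u with
  | nil => exact absurd trivial h
  | cons z es ih =>
    by_cases hz : z.2.1 = u ∧ K0 z.2.2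
    · obtain ⟨v', hv', ht⟩ := ih z.2.1 fun h' => h ⟨hz, h'⟩
      exact ⟨v', List.mem_cons_of_mem _ hv', fun t h0 => Or.inr (ht t h0)⟩
    · exact ⟨z.1, List.mem_cons_self, fun t h0 => Or.inl ⟨hz, h0⟩⟩

theorem mixv_lft_congr (s s' : W → Z) (b b' : W → Bool) (es : List (W × W × Ter))
    (hs : ∀ v ∈ es.map Prod.fst, s v = s' v) (hb : ∀ v ∈ es.map Prod.fst, b v = b' v)
    (x y r : Z) (h : Lft o s b es x y r) : Lft o s' b' es x y r := by
  induction es generalizing y with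
  | nil => exact h
  | cons z es ih =>
    obtain ⟨p, h1, h2, h3⟩ := h
    have e1 : s z.1 = s' z.1 := hs z.1 List.mem_cons_self
    have e2 : b z.1 = b' z.1 := hb z.1 List.mem_cons_self
    refine ⟨p, ih (fun v hv => hs v (List.mem_cons_of_mem _ hv))
      (fun v hv => hb v (List.mem_cons_of_mem _ hv)) p h1, ?_, ?_⟩
    · rw [← e1]; exact h2
    · rw [← e1, ← e2]; exact h3

theorem mixv_chain (s t : W → Z) (c σ : Z) (b0 : W → Bool) (es tl : List (W × W × Ter))
    (hs : ∀ v ∈ es.map Prod.fst, s v = c * t v + σ)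
    (hnd : ((es ++ tl).map Prod.fst).Nodup) (x q y r : Z) (h0 : Lft o s b0 tl x q r)
    (h : chain ((es.map fun z => (z.2.2, t z.1)).map fun z => (z.1, c * z.2))
      (q - σ) (y - σ) (r - σ)) :
    ∃ b : W → Bool, (∀ v, v ∉ es.map Prod.fst → b v = b0 v) ∧ Lft o s b (es ++ tl) x y r := by
  classical
  induction es generalizing y with
  | nil =>
    have hq : q - σ = y - σ := h
    have hq' : q = y := sub_left_injective hq
    exact ⟨b0, fun _ _ => rfl, hq' ▸ h0⟩
  | cons z es ih =>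
    obtain ⟨p, h1, h2⟩ := h
    have hnd' : z.1 ∉ (es ++ tl).map Prod.fst ∧ ((es ++ tl).map Prod.fst).Nodup :=
      List.nodup_cons.mp hnd
    have h1' : chain ((es.map fun z => (z.2.2, t z.1)).map fun z => (z.1, c * z.2))
        (q - σ) (p + σ - σ) (r - σ) := by
      rw [add_sub_cancel_right]; exact h1
    obtain ⟨b, hb1, hb2⟩ := ih (fun v hv => hs v (List.mem_cons_of_mem _ hv)) hnd'.2 (p + σ) h1'
    have e1 : s z.1 = c * t z.1 + σ := hs z.1 List.mem_cons_self
    refine ⟨Function.update b z.1 (xor (isQ (p + σ - s z.1)) (o z.1 z.2.1)), ?_, p + σ, ?_, ?_, ?_⟩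
    · intro v hv
      have hv1 : v ≠ z.1 := fun e => hv (e ▸ List.mem_cons_self)
      rw [Function.update_of_ne hv1]
      exact hb1 v fun hv' => hv (List.mem_cons_of_mem _ hv')
    · refine mixv_lft_congr o s s b _ (es ++ tl) (fun _ _ => rfl) ?_ x (p + σ) r hb2
      intro v hv
      have hv1 : v ≠ z.1 := fun e => hnd'.1 (e ▸ hv)
      rw [Function.update_of_ne hv1]
    · have f1 : p + σ - s z.1 = p - c * t z.1 := by rw [e1]; ring
      have f2 : y - s z.1 = y - σ - c * t z.1 := by rw [e1]; ring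
      have f3 : r - s z.1 = r - σ - c * t z.1 := by rw [e1]; ring
      rw [f1, f2, f3]
      exact h2
    · rw [Function.update_self]

theorem mixv_root (hT : Tour o) (w u v : W) (huv : u ≠ v) (s : W → Z) (b : W → Bool)
    (z : W × W × Ter) (es : List (W × W × Ter)) (hz : z.1 = v) (hS : StkM o w (z :: es) u)
    (x r : Z) (hL : Lft o s b (z :: es) x (s u) r) (col : W → Col) (bu : Bool)
    (hu : col u = (0, s u, bu)) (hv : col v = (1, s v, b v)) : ok o col u v := by
  have hP : ParT (xor (o z.1 z.2.1) (o z.1 u)) z.2.2 := by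
    rcases hS with ⟨h1, -⟩ | ⟨h1, -⟩
    · exact h1.2.1
    · exact h1.2.1
  obtain ⟨p, -, h2, h3⟩ := hL
  have h4 := hP _ _ _ h2
  rw [hz] at h3 h4
  have h5 : o v u = !(o u v) := hT u v huv
  have n1 : ¬ ((0 : ZMod 3) = 1) := by decide
  have n2 : ¬ ((0 : ZMod 3) = 1 + 1) := by decide
  have n3 : ¬ ((1 : ZMod 3) = 0) := by decide
  have n4 : (1 : ZMod 3) = 0 + 1 := by decide
  unfold ok arc
  rw [hu, hv]
  simp only [if_neg n1, if_neg n2, if_neg n3, if_pos n4]
  rw [h3]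
  rw [h5] at h4
  revert h4
  generalize isQ (p - s v) = A
  generalize isQ (s u - s v) = B
  generalize o v z.2.1 = C
  generalize o u v = D
  revert A B C D
  decide

theorem mixv_split (st : List (W × W × Ter)) (l1 l2 : List W) (y : W)
    (h : (st.map Prod.fst).reverse = l1 ++ y :: l2) :
    ∃ es1 a My rest, st = es1 ++ (y, a, My) :: rest ∧ es1.map Prod.fst = l2.reverse ∧
      rest.map Prod.fst = l1.reverse := by
  have h1 : st.map Prod.fst = l2.reverse ++ y :: l1.reverse := by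
    rw [← List.reverse_reverse (st.map Prod.fst), h]; simp
  obtain ⟨es1, tl, rfl, h2, h3⟩ := List.map_eq_append_iff.mp h1
  obtain ⟨z, rest, rfl, h4, h5⟩ := List.map_eq_cons_iff.mp h3
  obtain ⟨y', a, My⟩ := z
  have : y' = y := h4
  subst this
  exact ⟨es1, a, My, rest, rfl, h2, h5⟩

theorem mixv_last (es es1 rest : List (W × W × Ter)) (v1 a1 y a : W) (N My My' : Ter)
    (h : es ++ [(v1, a1, N)] = es1 ++ (y, a, My) :: rest) :
    ∃ es' N', es' ++ [(v1, a1, N')] = (y, a, My') :: rest := by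
  rcases List.eq_nil_or_concat rest with rfl | ⟨rest', z, rfl⟩
  · have h2 := List.append_inj_right' h rfl
    simp only [List.cons.injEq, Prod.mk.injEq, and_true] at h2
    obtain ⟨rfl, rfl, -⟩ := h2
    exact ⟨[], My', rfl⟩
  · have h1 : es ++ [(v1, a1, N)] = (es1 ++ (y, a, My) :: rest') ++ [z] := by
      rw [h]; simp
    have h2 := List.append_inj_right' h1 rfl
    simp only [List.cons.injEq, and_true] at h2
    subst h2
    exact ⟨(y, a, My') :: rest', N, by simp⟩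

end mixv

theorem blk_MIXV (h1 : St_KCMP) (h2 : St_KBRU) (h3 : St_KBRM) : St_MIXV := by
  intro W o hT u y z v us vs m2 Y Y1 Y2 hlast hnd hL1 hL2 hI2 hM1 hP2 hY
  classical
  intro w u' v1 a1 N es hhead hwz hmap hSM hSU
  have hu' : u = u' := by simpa using hhead
  subst hu'
  obtain ⟨es1, a, My, rest, hst, he1, hrest⟩ := mixv_split _ vs (m2 ++ [v]) y hmap
  -- disjointness
  have hd1 : ∀ x ∈ u :: us, x ∉ vs ++ y :: (m2 ++ [v]) := fun x hx hx' =>
    (List.nodup_append.mp hnd).2.2 x hx x hx' rfl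
  have hnd2 : (vs ++ y :: (m2 ++ [v])).Nodup := (List.nodup_append.mp hnd).2.1
  have hd2 : ∀ x ∈ vs, x ∉ m2 ++ [v] := fun x hx hx' =>
    (List.nodup_append.mp hnd2).2.2 x hx x (List.mem_cons_of_mem _ hx') rfl
  have hd3 : y ∉ m2 ++ [v] := (List.nodup_cons.mp (List.nodup_append.mp hnd2).2.1).1
  have hd4 : ∀ x ∈ u :: us, x ∉ m2 ++ [v] := fun x hx hx' =>
    hd1 x hx (List.mem_append_right _ (List.mem_cons_of_mem _ hx'))
  have hd5 : ∀ x ∈ y :: (m2 ++ [v]), x ∉ u :: us := fun x hx hx' =>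
    hd1 x hx' (List.mem_append_right _ hx)
  have hmem1 : ∀ x, x ∈ es1.map Prod.fst ↔ x ∈ m2 ++ [v] := fun x => by
    rw [he1, List.mem_reverse]
  have hz : z ∈ u :: us := List.mem_of_getLast? hlast
  -- labels of the lower hole
  obtain ⟨t, ht0, htD, htY⟩ : ∃ t : W → Z, t y = 0 ∧ (AllDeg es1 u ∨ NZ t es1 u) ∧
      ∀ b : W → Bool, Y2 fun x => (0, t x, b x) := by
    obtain ⟨q, hq0, hq⟩ : ∃ q : Z, q ≠ 0 ∧ ar (o y v) 0 q := by
      generalize o y v = d
      cases d
      · exact ⟨-1, by decide, by unfold ar; decide⟩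
      · exact ⟨1, by decide, by unfold ar; decide⟩
    by_cases hD : AllDeg es1 u
    · obtain ⟨t, e1, -, -, e4⟩ := hP2 y 0 q 0 hq
      exact ⟨t, e1, Or.inl hD, e4⟩
    · obtain ⟨v', hv', hnz⟩ := mixv_nz es1 u hD
      obtain ⟨t, e1, e2, e3, e4⟩ := hP2 v' 0 q 0 hq
      refine ⟨t, e1, Or.inr (hnz t ?_), e4⟩
      rcases List.mem_append.mp ((hmem1 v').mp hv') with h | h
      · exact e3 h
      · rw [List.mem_singleton.mp h, e2]; exact hq0
  -- the new entry of `y`
  obtain ⟨B, hB⟩ : ∃ B : Ter, B = br (xor (o y (bot es1 u)) (o y u))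
      (es1.map fun z => (z.2.2, t z.1)) := ⟨_, rfl⟩
  obtain ⟨es', N', hst'⟩ := mixv_last es es1 rest v1 a1 y a N My (cmp My B) hst
  have hK := h1 W o w y a (bot es1 u) u My B
  have hSM' : StkM o w ((y, a, cmp My B) :: rest) u := by
    rw [hst] at hSM
    rcases mixv_stkM_append o w es1 _ u hSM with ⟨k1, k2⟩ | ⟨k1, k2, k3⟩
    · have kB := h2 W o y u t es1 k1 htD
      rw [← hB] at kB
      rcases k2 with ⟨k3, k4⟩ | ⟨k3, k4⟩
      · exact Or.inl ⟨hK.1 k3 kB, k4⟩
      · exact Or.inr ⟨hK.2.2 k3 kB, k4⟩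
    · have kB := h3 W o w y u t es1 k1 htD
      rw [← hB] at kB
      rcases kB with kB | kB
      · exact Or.inl ⟨hK.1 k2 kB, mixv_stkM_of_stkU o w rest a k3⟩
      · exact Or.inr ⟨hK.2.1 k2 kB, k3⟩
  have hSU' : w ∈ u :: us → StkU o ((y, a, cmp My B) :: rest) u := by
    intro hw
    have k0 := hSU hw
    rw [hst] at k0
    obtain ⟨k1, k2, k3⟩ := mixv_stkU_append o es1 _ u k0
    have kB := h2 W o y u t es1 k1 htD
    rw [← hB] at kB
    exact ⟨hK.1 k2 kB, k3⟩
  have hmap' : ((es' ++ [(v1, a1, N')]).map Prod.fst).reverse = vs ++ [y] := by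
    rw [hst', List.map_cons, hrest]; simp
  have hv1 : v1 ∈ vs ++ [y] := by
    rw [← hmap']; simp
  have hd6 : ∀ x ∈ vs ++ [y], x ∉ m2 ++ [v] := by
    intro x hx
    rcases List.mem_append.mp hx with h | h
    · exact hd2 x h
    · rw [List.mem_singleton.mp h]; exact hd3
  obtain ⟨M, hM, hreal⟩ := hM1 w u v1 a1 N' es' hhead hwz hmap' (hst' ▸ hSM') (hst' ▸ hSU')
  refine ⟨M, hM, fun x y0 r hxy => ?_⟩
  obtain ⟨s1, b1, g1, g2, g3, g4, g5⟩ := hreal x y0 r hxy
  rw [hst'] at g4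
  obtain ⟨p, g6, ⟨q, g7, g8⟩, g9⟩ := g4
  rw [hB] at g8
  obtain ⟨-, c, hc, g8⟩ := g8
  obtain ⟨s, hs1, hs2⟩ : ∃ s : W → Z, (∀ x ∈ m2 ++ [v], s x = c * t x + s1 y) ∧
      ∀ x, x ∉ m2 ++ [v] → s x = s1 x :=
    ⟨fun x => if x ∈ m2 ++ [v] then c * t x + s1 y else s1 x, fun x hx => if_pos hx,
      fun x hx => if_neg hx⟩
  have hsy : s y = s1 y := hs2 y hd3
  have hsu : s u = s1 u := hs2 u (hd4 u List.mem_cons_self)
  have l0 : Lft o s b1 ((y, a, My) :: rest) x (q + s1 y) r := by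
    refine ⟨p, mixv_lft_congr o s1 s b1 b1 rest ?_ (fun _ _ => rfl) x p r g6, ?_, ?_⟩
    · intro x' hx'
      rw [hrest, List.mem_reverse] at hx'
      exact (hs2 x' (hd2 x' hx')).symm
    · show My (p - s y) (q + s1 y - s y) (r - s y)
      rw [hsy, add_sub_cancel_right]; exact g7
    · show b1 y = xor (isQ (p - s y)) (o y a)
      rw [hsy]; exact g9
  have hnd3 : ((es1 ++ (y, a, My) :: rest).map Prod.fst).Nodup := by
    rw [← hst, ← List.nodup_reverse, hmap]; exact hnd2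
  obtain ⟨b, hb1, hb2⟩ := mixv_chain o s t c (s1 y) b1 es1 _
    (fun x hx => hs1 x ((hmem1 x).mp hx)) hnd3 x (q + s1 y) (s u) r l0
    (by rw [add_sub_cancel_right, hsu]; exact g8)
  refine ⟨s, b, ?_, ?_, ?_, ?_, ?_⟩
  · rw [hs2 v1 (hd6 v1 hv1)]; exact g1
  · rw [hs2 z (hd4 z hz)]; exact g2
  · intro hw
    rw [hs2 w (hd4 w hw)]; exact g3 hw
  · rw [hst]; exact hb2
  · intro b'
    apply hY
    · refine hL1 _ _ ?_ (g5 b')
      intro x' hx'
      have hx2 : x' ∉ m2 ++ [v] := by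
        rcases List.mem_append.mp hx' with h | h
        · exact hd4 x' h
        · exact hd6 x' h
      simp only [hs2 x' hx2, hb1 x' fun h => hx2 ((hmem1 x').mp h)]
    · refine hL2 _ _ ?_ (hI2 1 c (s1 y) hc _ (htY b))
      intro x' hx'
      have e1 : s x' = c * t x' + s1 y := by
        rcases List.mem_cons.mp hx' with h | h
        · rw [h, hsy, ht0, mul_zero, zero_add]
        · exact hs1 x' h
      simp only [if_neg (hd5 x' hx'), mv, zero_add, e1]
    · have hv : v ∈ y :: (m2 ++ [v]) := by simp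
      have huv : u ≠ v := fun e => hd5 v hv (e ▸ List.mem_cons_self)
      rw [hst] at hSM
      have he2 : es1.map Prod.fst = v :: m2.reverse := by rw [he1]; simp
      obtain ⟨z0, es2, rfl, hz0, -⟩ := List.map_eq_cons_iff.mp he2
      exact mixv_root o hT w u v huv s b z0 _ hz0 hSM x r hb2 _ (b' u)
        (if_pos List.mem_cons_self) (if_neg (hd5 v hv))

end Pool.Agent.OC66
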